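import Mathlib

set_option autoImplicit false

/-!
# Lifting idempotents through normal subgroups: definitions

Tame groups (all chains of roots have bounded exponent), almost divisible elements, and the lifting
relation between subgroups.
-/

namespace Pool.Agent.Y84.KI

universe u v

/-- `Γ` has a subgroup of finite index which is residually a finite `p`-group. -/
def VRes (p : ℕ) (Γ : Type v) [Group Γ] : Prop :=
  ∃ N : Subgroup Γ, N.FiniteIndex ∧ ∀ g : N, g ≠ 1 →
    ∃ (F : Type) (_ : Group F) (_ : Finite F) (f : N →* F), IsPGroup p F ∧ f g ≠ 1

/-- `Γ` is virtually residually `p` for infinitely many primes `p`. -/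
def VResMany (Γ : Type v) [Group Γ] : Prop :=
  ∀ m : ℕ, ∃ p : ℕ, m < p ∧ p.Prime ∧ VRes p Γ

/-- The smallest class of groups that contains the groups with the ascending chain condition on
cyclic subgroups, the groups of bounded exponent, the groups that are virtually residually `p` for
infinitely many primes `p`, the automorphism groups of finitely generated groups of this kind, and
the finitely generated groups of automorphisms of a finitely generated commutative algebra over a
field of characteristic zero, and that is closed under subgroups, extensions and overgroups of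
finite index. -/
inductive Tame : ∀ (A : Type v) [Group A], Prop
  | acc (A : Type v) [Group A] (h : ∀ b : ℕ → A, (∀ i, b i ∈ Subgroup.zpowers (b (i + 1))) →
      ∃ k, b (k + 1) ∈ Subgroup.zpowers (b k)) : Tame A
  | exp (A : Type v) [Group A] (s : ℕ) (hs : 0 < s) (h : ∀ a : A, a ^ s = 1) : Tame A
  | resid (A : Type v) [Group A] (h : VResMany A) : Tame A
  | aut (Γ : Type v) [Group Γ] (hΓ : Group.FG Γ) (h : VResMany Γ) : Tame (MulAut Γ)
  | alg (A : Type v) [Group A] (hA : Group.FG A) (F B : Type) [Field F] [CharZero F] [CommRing B]
      [Algebra F B] [Algebra.FiniteType F B] (f : A →* (B ≃ₐ[F] B))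
      (hf : Function.Injective f) : Tame A
  | sub (A B : Type v) [Group A] [Group B] (f : A →* B) (hf : Function.Injective f)
      (h : Tame B) : Tame A
  | ext (A : Type v) [Group A] (M : Subgroup A) [M.Normal] (h1 : Tame M) (h2 : Tame (A ⧸ M)) :
      Tame A
  | fin (A : Type v) [Group A] (M : Subgroup A) [M.FiniteIndex] (h : Tame M) : Tame A

/-- There are `m ≥ 2` and `J ≥ 1` such that `x` is conjugate to `x ^ (n ^ J)` for all `n` prime to
`m`. -/
def AlmostDiv {G : Type v} [Group G] (x : G) : Prop :=
  ∃ m J : ℕ, 2 ≤ m ∧ 1 ≤ J ∧ ∀ n : ℕ, n.Coprime m → IsConj x (x ^ n ^ J)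

/-- Every nontrivial finitely generated subgroup of `L` maps onto the infinite cyclic group. -/
def LocIndicable {G : Type v} [Group G] (L : Subgroup G) : Prop :=
  ∀ H : Subgroup G, H ≤ L → H.FG → H ≠ ⊥ → ∃ φ : H →* Multiplicative ℤ, Function.Surjective φ

/-- Each element `x ≠ 1` of `L` is not almost divisible in `G`, or its centraliser in `G` has a
homomorphism to the additive group of `K` which does not vanish at `x`. -/
def NonDiv (K : Type u) [Field K] {G : Type v} [Group G] (L : Subgroup G) : Prop :=
  ∀ x ∈ L, x ≠ 1 → ¬ AlmostDiv x ∨ ∃ (φ : Subgroup.centralizer {x} →* Multiplicative K)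
    (z : Subgroup.centralizer {x}), (z : G) = x ∧ φ z ≠ 1

/-- The smallest relation between subgroups `M`, `N` of groups `G` such that: it holds if `M ≤ N` are
normal and `N / M` is locally indicable; it holds if `M ≤ N` are normal and the elements of `N / M`
are not almost divisible in `G / M` or have centralisers with a suitable additive character; it is
transitive; it passes to directed unions of the second subgroups and to downward directed
intersections of the first subgroups; it holds for `M`, `N` if it holds for `H ∩ M`, `H ∩ N` in all
finitely generated subgroups `H` of `G`. -/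
inductive Lifts (K : Type u) [Field K] :
    ∀ (G : Type v) [Group G], Subgroup G → Subgroup G → Prop
  | indicable (G : Type v) [Group G] (M N : Subgroup G) [M.Normal] [N.Normal] (hMN : M ≤ N)
      (h : LocIndicable (N.map (QuotientGroup.mk' M))) : Lifts K G M N
  | nondiv (G : Type v) [Group G] (M N : Subgroup G) [M.Normal] [N.Normal] (hMN : M ≤ N)
      (h : NonDiv K (N.map (QuotientGroup.mk' M))) : Lifts K G M N
  | trans (G : Type v) [Group G] (L M N : Subgroup G) (h1 : Lifts K G L M)
      (h2 : Lifts K G M N) : Lifts K G L N
  | union (G : Type v) [Group G] (M : Subgroup G) (c : Set (Subgroup G)) (hne : c.Nonempty)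
      (hdir : DirectedOn (· ≤ ·) c) (h : ∀ N ∈ c, Lifts K G M N) : Lifts K G M (sSup c)
  | inter (G : Type v) [Group G] (N : Subgroup G) (c : Set (Subgroup G)) (hne : c.Nonempty)
      (hdir : DirectedOn (· ≥ ·) c) (h : ∀ M ∈ c, Lifts K G M N) : Lifts K G (sInf c) N
  | locally (G : Type v) [Group G] (M N : Subgroup G)
      (h : ∀ H : Subgroup G, H.FG → Lifts K H (M.subgroupOf H) (N.subgroupOf H)) :
      Lifts K G M N

end Pool.Agent.Y84.KI
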