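import Mathlib
import Pool.Agent.Y84.KI.Defs
import Pool.Agent.H26R2.IdemLI.Local
import Pool.Agent.H26R2.Kap2.Main

set_option autoImplicit false

/-!
# Semantics of the lifting relation
-/

namespace Pool.Agent.Y84.KI

open MonoidAlgebra
open Pool.Agent.H26R2.IdemLI (J U ind U_congr U_eq_sum ind_congr J_mono J_bot mem_J_ker fs_coeff_eq
  map_mem_J J_of_sep quots mem_quots det_iff Det LocInd J_subgroupOf U_subtype det_of_locInd det_bot
  PP PP_bot U_single J_mul)
open Pool.Agent.H40R2.Zd (fs fs_single fs_coeff fs_supp fs_ne exists_restrict)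

universe u v

section

variable {K : Type u} [Field K] {G : Type v} [Group G]

/-- matrices that are idempotent modulo `M` and vanish modulo `N` vanish modulo `M` -/
def P (K : Type u) [Field K] {G : Type v} [Group G] (M N : Subgroup G) : Prop :=
  M ≤ N ∧ ∀ (n : ℕ) (E : Matrix (Fin n) (Fin n) (MonoidAlgebra K G)),
    (∀ i j, (E * E - E) i j ∈ J K M) → (∀ i j, E i j ∈ J K N) → ∀ i j, E i j ∈ J K M

theorem P_of_det (M N : Subgroup G) [M.Normal] [N.Normal] (hMN : M ≤ N)
    (h : Det K (N.map (QuotientGroup.mk' M))) : P K M N := by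
  refine ⟨hMN, fun n E h1 h2 => ?_⟩
  have h3 : E.map (fs K (QuotientGroup.mk' M)) * E.map (fs K (QuotientGroup.mk' M)) =
      E.map (fs K (QuotientGroup.mk' M)) := by
    rw [← Matrix.map_mul]
    ext1 i j
    have h4 := h1 i j
    rw [← QuotientGroup.ker_mk' M, mem_J_ker, Matrix.sub_apply, map_sub, sub_eq_zero] at h4
    exact h4
  have h5 := (det_iff _).1 h n _ h3 (fun i j => map_mem_J M N hMN _ (h2 i j))
  intro i j
  rw [← QuotientGroup.ker_mk' M, mem_J_ker]
  exact congrFun (congrFun h5 i) j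

theorem P.trans {L M N : Subgroup G} (h1 : P K L M) (h2 : P K M N) : P K L N :=
  ⟨h1.1.trans h2.1, fun n E h3 h4 => h1.2 n E h3
    (h2.2 n E (fun i j => J_mono h1.1 (h3 i j)) h4)⟩

theorem P.union (M : Subgroup G) (c : Set (Subgroup G)) (hne : c.Nonempty)
    (hdir : DirectedOn (· ≤ ·) c) (h : ∀ N ∈ c, P K M N) : P K M (sSup c) := by
  classical
  have hmem : ∀ g, g ∈ sSup c ↔ ∃ M ∈ c, g ∈ M := fun g =>
    Subgroup.mem_sSup_of_directedOn hne hdir
  obtain ⟨N0, hN0⟩ := hne
  refine ⟨(h N0 hN0).1.trans (le_sSup hN0), fun n E h1 h2 => ?_⟩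
  obtain ⟨N, hN, hNS⟩ : ∃ N ∈ c, ∀ s ∈ quots E, s ∈ sSup c → s ∈ N := by
    induction quots E using Finset.induction_on with
    | empty => exact ⟨N0, hN0, by simp⟩
    | insert s S _ ih =>
      obtain ⟨M', hM', hMS⟩ := ih
      by_cases hs : s ∈ sSup c
      · obtain ⟨M1, hM1, hsM1⟩ := (hmem s).1 hs
        obtain ⟨M2, hM2, h1, h2⟩ := hdir M' hM' M1 hM1
        refine ⟨M2, hM2, fun t ht htc => ?_⟩
        rcases Finset.mem_insert.1 ht with rfl | ht
        · exact h2 hsM1
        · exact h1 (hMS t ht htc)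
      · refine ⟨M', hM', fun t ht htc => ?_⟩
        rcases Finset.mem_insert.1 ht with rfl | ht
        · exact absurd htc hs
        · exact hMS t ht htc
  refine (h N hN).2 n E h1 (fun i j => ?_)
  exact J_of_sep N (sSup c) (le_sSup hN) _ (h2 i j)
    (fun y y' hy hy' h3 => hNS _ (mem_quots E i j y y' hy hy') h3)

theorem P.inter (N : Subgroup G) (c : Set (Subgroup G)) (hne : c.Nonempty)
    (hdir : DirectedOn (· ≥ ·) c) (h : ∀ M ∈ c, P K M N) : P K (sInf c) N := by
  classical
  obtain ⟨M0, hM0⟩ := hne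
  refine ⟨(sInf_le hM0).trans (h M0 hM0).1, fun n E h1 h2 => ?_⟩
  obtain ⟨M, hM, hMS⟩ : ∃ M ∈ c, ∀ s ∈ quots E, s ∈ M → s ∈ sInf c := by
    induction quots E using Finset.induction_on with
    | empty => exact ⟨M0, hM0, by simp⟩
    | insert s S _ ih =>
      obtain ⟨M', hM', hMS⟩ := ih
      by_cases hs : s ∈ sInf c
      · refine ⟨M', hM', fun t ht htc => ?_⟩
        rcases Finset.mem_insert.1 ht with rfl | ht
        · exact hs
        · exact hMS t ht htc
      · obtain ⟨M1, hM1, hsM1⟩ : ∃ M1 ∈ c, s ∉ M1 := by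
          by_contra hcon
          push Not at hcon
          exact hs (Subgroup.mem_sInf.2 hcon)
        obtain ⟨M2, hM2, h1, h2⟩ := hdir M' hM' M1 hM1
        refine ⟨M2, hM2, fun t ht htc => ?_⟩
        rcases Finset.mem_insert.1 ht with rfl | ht
        · exact absurd (h2 htc) hsM1
        · exact hMS t ht (h1 htc)
  have h3 := (h M hM).2 n E (fun i j => J_mono (sInf_le hM) (h1 i j)) h2
  intro i j
  exact J_of_sep (sInf c) M (sInf_le hM) _ (h3 i j)
    (fun y y' hy hy' h4 => hMS _ (mem_quots E i j y y' hy hy') h4)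

lemma J_of_subgroupOf (H M : Subgroup G) (a : MonoidAlgebra K H)
    (ha : a ∈ J K (M.subgroupOf H)) : fs K H.subtype a ∈ J K M := by
  intro g
  rw [U_subtype]
  by_cases hg : ∃ h0 : H, (h0 : G) * g⁻¹ ∈ M
  · obtain ⟨h0, hh0⟩ := hg
    rw [← ha h0]
    apply U_congr
    intro y _
    unfold ind
    have e : (y : G) * g⁻¹ ∈ M ↔ y * h0⁻¹ ∈ M.subgroupOf H := by
      rw [Subgroup.mem_subgroupOf]
      have e1 : ((y * h0⁻¹ : H) : G) = ((y : G) * g⁻¹) * ((h0 : G) * g⁻¹)⁻¹ := by
        rw [Subgroup.coe_mul, Subgroup.coe_inv]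
        group
      rw [e1]
      exact (M.mul_mem_cancel_right (M.inv_mem hh0)).symm
    by_cases hy : (y : G) * g⁻¹ ∈ M
    · rw [if_pos hy, if_pos (e.1 hy)]
    · rw [if_neg hy, if_neg (fun h' => hy (e.2 h'))]
  · have h1 : U (fun h : H => ind K M g (h : G)) a = U (fun _ : H => (0 : K)) a := by
      apply U_congr
      intro y _
      unfold ind
      rw [if_neg]
      intro hc
      exact hg ⟨y, hc⟩
    rw [h1, U_eq_sum _ _ _ subset_rfl]
    simp

theorem P.locally (M N : Subgroup G)
    (h : ∀ H : Subgroup G, H.FG → P K (M.subgroupOf H) (N.subgroupOf H)) : P K M N := by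
  classical
  constructor
  · intro x hx
    have hfg : (Subgroup.closure {x} : Subgroup G).FG := ⟨{x}, by simp⟩
    have h1 := (h _ hfg).1
    have hxm : x ∈ Subgroup.closure ({x} : Set G) := Subgroup.subset_closure rfl
    have h2 : (⟨x, hxm⟩ : Subgroup.closure ({x} : Set G)) ∈
        M.subgroupOf (Subgroup.closure ({x} : Set G)) := Subgroup.mem_subgroupOf.2 hx
    exact Subgroup.mem_subgroupOf.1 (h1 h2)
  · intro n E hE h0
    let T : Finset G := Finset.univ.biUnion fun q : Fin n × Fin n => (E q.1 q.2).coeff.support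
    let H : Subgroup G := Subgroup.closure (T : Set G)
    have hT : ∀ i j g, (E i j).coeff g ≠ 0 → g ∈ H := by
      intro i j g hg
      apply Subgroup.subset_closure
      exact Finset.mem_coe.2 (Finset.mem_biUnion.2 ⟨(i, j), Finset.mem_univ _,
        Finsupp.mem_support_iff.2 hg⟩)
    choose E1 hE1 using fun i j => exists_restrict H (E i j) (hT i j)
    let E2 : Matrix (Fin n) (Fin n) (MonoidAlgebra K H) := Matrix.of E1
    have hmap : E2.map (fs K H.subtype) = E := by
      ext1 i j
      exact hE1 i j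
    have h3 := (h H ⟨T, rfl⟩).2 n E2 (fun i j => by
      apply J_subgroupOf
      have h4 : (E2 * E2 - E2).map (fs K H.subtype) = E * E - E := by
        rw [Matrix.map_sub _ (fun a b => map_sub _ a b), Matrix.map_mul, hmap]
      have h5 : fs K H.subtype ((E2 * E2 - E2) i j) = (E * E - E) i j :=
        congrFun (congrFun h4 i) j
      rw [h5]
      exact hE i j) (fun i j => by
      apply J_subgroupOf
      have : fs K H.subtype (E2 i j) = E i j := hE1 i j
      rw [this]
      exact h0 i j)
    intro i j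
    have h4 : fs K H.subtype (E2 i j) = E i j := hE1 i j
    rw [← h4]
    exact J_of_subgroupOf H M _ (h3 i j)

theorem locInd_of [CharZero K] {L : Subgroup G} (h : LocIndicable L) : LocInd K L := by
  intro H hH hfg hne
  obtain ⟨φ, hφ⟩ := h H hH hfg hne
  let ψ : Multiplicative ℤ →* Multiplicative K := AddMonoidHom.toMultiplicative (Int.castAddHom K)
  refine ⟨ψ.comp φ, fun h0 => ?_⟩
  obtain ⟨x, hx⟩ := hφ (Multiplicative.ofAdd 1)
  have h1 : ψ (φ x) = 1 := DFunLike.congr_fun h0 x
  rw [hx] at h1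
  have h2 : ((1 : ℤ) : K) = 0 := Multiplicative.ofAdd.injective h1
  rw [Int.cast_one] at h2
  exact one_ne_zero h2

theorem good_of [CharZero K] {x : G} (h : ¬ AlmostDiv x ∨
    ∃ (φ : Subgroup.centralizer {x} →* Multiplicative K)
      (z : Subgroup.centralizer {x}), (z : G) = x ∧ φ z ≠ 1) :
    Pool.Agent.H26R2.Bass.Good K x := by
  rcases h with h | ⟨φ, z, hz, hφ⟩
  · exact Or.inr (Or.inr ⟨inferInstance, h⟩)
  · let ψ : Multiplicative K →* Multiplicative (FractionRing K) :=
      AddMonoidHom.toMultiplicative (algebraMap K (FractionRing K)).toAddMonoidHom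
    refine Or.inl ⟨ψ.comp φ, z, hz, fun h1 => hφ ?_⟩
    have h2 : algebraMap K (FractionRing K) (Multiplicative.toAdd (φ z)) = 0 :=
      Multiplicative.ofAdd.injective h1
    have h3 : Multiplicative.toAdd (φ z) = 0 :=
      (IsFractionRing.injective K (FractionRing K)) (by rw [h2, map_zero])
    exact Multiplicative.toAdd.injective h3

theorem det_of_nonDiv [CharZero K] {L : Subgroup G} [L.Normal] (h : NonDiv K L) : Det K L :=
  Pool.Agent.H26R2.Kap2.det_step_good ⊥ L bot_le det_bot
    (fun g hg hg1 => good_of (h g hg (fun h2 => hg1 (Subgroup.mem_bot.2 h2))))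

end

/-- the lifting theorem -/
theorem P_of_lifts {K : Type u} [Field K] [CharZero K] {G : Type v} [Group G] {M N : Subgroup G}
    (h : Lifts K G M N) : P K M N := by
  induction h with
  | indicable G M N hMN h => exact P_of_det M N hMN (det_of_locInd _ (locInd_of h))
  | nondiv G M N hMN h => exact P_of_det M N hMN (det_of_nonDiv h)
  | trans G L M N _ _ ih1 ih2 => exact ih1.trans ih2
  | union G M c hne hdir _ ih => exact P.union M c hne hdir ih
  | inter G N c hne hdir _ ih => exact P.inter N c hne hdir ih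
  | locally G M N _ ih => exact P.locally M N ih

theorem det_of_lifts {K : Type u} [Field K] [CharZero K] {G : Type v} [Group G] {N : Subgroup G}
    [N.Normal] (h : Lifts K G ⊥ N) : Det K N := by
  rw [det_iff]
  intro n E hE h0
  have h1 := (P_of_lifts h).2 n E (fun i j => by
    rw [hE, sub_self]
    exact Submodule.zero_mem _) h0
  ext1 i j
  exact J_bot (h1 i j)

end Pool.Agent.Y84.KI
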